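import Pool.Agent.W503.KK.Stm

set_option autoImplicit false

open MeasureTheory Real ProbabilityTheory
open scoped ENNReal BigOperators

namespace Pool.Agent.W493.KK

open Pool.Agent.W503.KK

theorem gs_lint {ι : Type} [Fintype ι] (μ : ι → Measure ℝ) [∀ i, IsProbabilityMeasure (μ i)]
    (f : ι → ℝ → ℝ≥0∞) (hf : ∀ i, Measurable (f i)) :
    ∫⁻ u, ∏ i, f i (u i) ∂(Measure.pi μ) = ∏ i, ∫⁻ t, f i t ∂(μ i) := by
  have hind : iIndepFun (fun i (u : ι → ℝ) => f i (u i)) (Measure.pi μ) :=
    iIndepFun_pi (fun i => (hf i).aemeasurable)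
  rw [lintegral_prod_eq_prod_lintegral_of_indepFun Finset.univ _ hind
    (fun i => (hf i).comp (measurable_pi_apply i))]
  refine Finset.prod_congr rfl fun i _ => ?_
  exact (measurePreserving_eval μ i).lintegral_comp (hf i)

/-- density of a shifted Gaussian -/
noncomputable def gs_d (m v u : ℝ) : ℝ≥0∞ := ENNReal.ofReal (Real.exp ((m * u) / v - m^2 / (2 * v)))

theorem gs_d_meas (m v : ℝ) : Measurable (gs_d m v) := by
  unfold gs_d
  fun_prop

theorem gs_dens (m : ℝ) (v : NNReal) (hv : v ≠ 0) :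
    gaussianReal m v = (gaussianReal 0 v).withDensity (gs_d m v) := by
  rw [gaussianReal_of_var_ne_zero m hv, gaussianReal_of_var_ne_zero 0 hv,
    ← withDensity_mul _ (measurable_gaussianPDF 0 v) (gs_d_meas m v)]
  congr 1
  funext u
  have hv' : (v : ℝ) ≠ 0 := by exact_mod_cast hv
  simp only [Pi.mul_apply, gaussianPDF, gaussianPDFReal, gs_d]
  rw [← ENNReal.ofReal_mul (by positivity)]
  congr 1
  have e : Real.exp (-(u - m) ^ 2 / (2 * (v : ℝ))) =
      Real.exp (-(u - 0) ^ 2 / (2 * (v : ℝ))) *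
        Real.exp (m * u / (v : ℝ) - m ^ 2 / (2 * (v : ℝ))) := by
    rw [← Real.exp_add]
    congr 1
    field_simp
    ring
  rw [e]
  ring

theorem gs_pi {ι : Type} [Fintype ι] (m : ι → ℝ) (v : NNReal) (hv : v ≠ 0) :
    Measure.pi (fun i => gaussianReal (m i) v) =
      (Measure.pi (fun _ : ι => gaussianReal 0 v)).withDensity
        (fun u => ∏ i, gs_d (m i) v (u i)) := by
  classical
  refine Measure.pi_eq fun S hS => ?_
  rw [withDensity_apply _ (MeasurableSet.univ_pi hS), ← lintegral_indicator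
    (MeasurableSet.univ_pi hS)]
  have e : (Set.univ.pi S).indicator (fun u : ι → ℝ => ∏ i, gs_d (m i) v (u i)) =
      fun u => ∏ i, (S i).indicator (gs_d (m i) v) (u i) := by
    funext u
    by_cases hu : u ∈ Set.univ.pi S
    · rw [Set.indicator_of_mem hu]
      refine Finset.prod_congr rfl fun i _ => ?_
      rw [Set.indicator_of_mem (hu i (Set.mem_univ i))]
    · rw [Set.indicator_of_notMem hu]
      rw [Set.mem_univ_pi] at hu
      push Not at hu
      obtain ⟨i, hi⟩ := hu
      symm
      refine Finset.prod_eq_zero (Finset.mem_univ i) ?_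
      rw [Set.indicator_of_notMem hi]
  rw [e, gs_lint _ _ (fun i => (gs_d_meas (m i) v).indicator (hS i))]
  refine Finset.prod_congr rfl fun i _ => ?_
  rw [lintegral_indicator (hS i), gs_dens (m i) v hv, withDensity_apply _ (hS i)]

theorem gs_prod {ι : Type} [Fintype ι] (m u : ι → ℝ) (v : ℝ) :
    ∏ i, gs_d (m i) v (u i) =
      ENNReal.ofReal (Real.exp ((∑ i, m i * u i) / v - (∑ i, m i ^ 2) / (2 * v))) := by
  unfold gs_d
  rw [← ENNReal.ofReal_prod_of_nonneg (fun i _ => (Real.exp_pos _).le), ← Real.exp_sum,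
    Finset.sum_sub_distrib, Finset.sum_div, Finset.sum_div]

theorem t_CM : S_CM := by
  intro ι _ a F
  have h1 : ∫ z, F (fun i => z i + a i) ∂(GG ι) =
      ∫ y, F y ∂(Measure.map (MeasurableEquiv.addRight a) (GG ι)) := by
    rw [integral_map_equiv]
    rfl
  have h2 : Measure.map (MeasurableEquiv.addRight a) (GG ι) =
      Measure.pi (fun i => gaussianReal (a i) 1) := by
    have e : (MeasurableEquiv.addRight a : (ι → ℝ) ≃ᵐ (ι → ℝ)) = 
        (fun (u : ι → ℝ) i => u i + a i : (ι → ℝ) → (ι → ℝ)) := rfl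
    have h3 : ∀ i : ι, IsProbabilityMeasure
        ((gaussianReal 0 1).map (fun t => t + a i)) := fun i =>
      Measure.isProbabilityMeasure_map (by fun_prop)
    show Measure.map (fun (u : ι → ℝ) i => u i + a i) (GG ι) = _
    rw [Measure.pi_map_pi (f := fun i (t : ℝ) => t + a i) (fun i => by fun_prop)]
    congr 1
    funext i
    rw [gaussianReal_map_add_const (a i), zero_add]
  rw [h1, h2, gs_pi a 1 one_ne_zero]
  simp only [gs_prod]
  rw [integral_withDensity_eq_integral_toReal_smul (by fun_prop)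
    (Filter.Eventually.of_forall fun z => ENNReal.ofReal_lt_top)]
  congr 1
  funext z
  rw [ENNReal.toReal_ofReal (Real.exp_pos _).le, smul_eq_mul, mul_comm]
  congr 2
  rw [Finset.sum_sub_distrib, ← Finset.sum_div]
  simp

end Pool.Agent.W493.KK
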