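import Pool.Agent.W503.KK.Stm

set_option autoImplicit false

open MeasureTheory Real ProbabilityTheory
open scoped ENNReal BigOperators

namespace Pool.Agent.W493.KK

open Pool.Agent.W503.KK

theorem mgf1 (t : ℝ) : ∫ x, Real.exp (t * x) ∂(gaussianReal 0 1) = Real.exp (t ^ 2 / 2) := by
  have h := mgf_gaussianReal (p := gaussianReal 0 1) (μ := 0) (v := 1) (X := id)
    (by rw [Measure.map_id]) t
  simp only [mgf, id_eq] at h
  rw [h]
  congr 1
  simp

theorem t_MGF : S_MGF := by
  intro ι _ a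
  have e : (fun z : ι → ℝ => Real.exp (∑ i, a i * z i)) =
      fun z => ∏ i, (fun t => Real.exp (a i * t)) (z i) := by
    funext z
    rw [Real.exp_sum]
  constructor
  · rw [e]
    exact Integrable.fintype_prod (f := fun i t => Real.exp (a i * t))
      (fun i => integrable_exp_mul_gaussianReal (a i))
  · rw [e, integral_fintype_prod_eq_prod (fun i t => Real.exp (a i * t))]
    rw [Real.exp_sum]
    exact Finset.prod_congr rfl (fun i _ => mgf1 (a i))

theorem sum_cosh (n : ℕ) (t : ℝ) :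
    ∑ x : Fin n → Bool, Real.exp ((∑ i, (if x i then (1:ℝ) else -1)) * t) =
      (2 * Real.cosh t) ^ n := by
  have h1 : ∀ x : Fin n → Bool, Real.exp ((∑ i, (if x i then (1:ℝ) else -1)) * t) =
      ∏ i, Real.exp ((if x i then (1:ℝ) else -1) * t) := by
    intro x
    rw [Finset.sum_mul, Real.exp_sum]
  simp only [h1]
  have h2 := (Finset.prod_univ_sum (fun _ : Fin n => (Finset.univ : Finset Bool))
    (fun _ b => Real.exp ((if b then (1:ℝ) else -1) * t))).symm
  rw [Fintype.piFinset_univ] at h2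
  rw [h2]
  simp only [Fintype.sum_bool, if_true, Finset.prod_const, Finset.card_univ, Fintype.card_fin]
  congr 1
  rw [Real.cosh_eq]
  simp
  ring

theorem t_RAD : S_RAD := by
  intro n hn
  have hn0 : (0 : ℝ) < n := by exact_mod_cast hn
  set r : ℝ := 2 * Real.sqrt n with hr
  have hr0 : 0 < r := by positivity
  have hr2 : r ^ 2 = 4 * n := by
    rw [hr, mul_pow, Real.sq_sqrt hn0.le]; norm_num
  have h1 : ∀ s : ℝ, Real.exp (s ^ 2 / (8 * n)) = ∫ g, Real.exp (s / r * g) ∂(gaussianReal 0 1) := by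
    intro s
    rw [mgf1]
    congr 1
    rw [div_pow, hr2]
    field_simp
    ring
  have h2 : (1 / 2 ^ n : ℝ) * ∑ x : Fin n → Bool,
      Real.exp ((∑ i, (if x i then (1:ℝ) else -1)) ^ 2 / (8 * n)) =
      ∫ g, (1 / 2 ^ n : ℝ) * (2 * Real.cosh (g / r)) ^ n ∂(gaussianReal 0 1) := by
    simp only [h1]
    rw [← integral_finsetSum _ (fun x _ => integrable_exp_mul_gaussianReal _),
      ← integral_const_mul]
    congr 1
    funext g
    rw [← sum_cosh]
    congr 1
    apply Finset.sum_congr rfl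
    intro x _
    congr 1
    ring
  rw [h2, integral_gaussianReal_eq_integral_smul one_ne_zero]
  have hpdf : ∀ g : ℝ, gaussianPDFReal 0 1 g * Real.exp (g ^ 2 / 8) =
      (Real.sqrt (2 * Real.pi))⁻¹ * Real.exp (-(3 / 8) * g ^ 2) := by
    intro g
    rw [gaussianPDFReal]
    simp only [NNReal.coe_one, mul_one, sub_zero]
    rw [mul_assoc, ← Real.exp_add]
    congr 2
    ring
  have h3 : ∫ g, gaussianPDFReal 0 1 g • ((1 / 2 ^ n : ℝ) * (2 * Real.cosh (g / r)) ^ n) ≤
      ∫ g, (Real.sqrt (2 * Real.pi))⁻¹ * Real.exp (-(3 / 8) * g ^ 2) := by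
    apply integral_mono_of_nonneg
    · apply Filter.Eventually.of_forall
      intro g
      show 0 ≤ gaussianPDFReal 0 1 g • ((1 / 2 ^ n : ℝ) * (2 * Real.cosh (g / r)) ^ n)
      rw [smul_eq_mul]
      have := gaussianPDFReal_nonneg 0 1 g
      have := Real.cosh_pos (g / r)
      positivity
    · exact (integrable_exp_neg_mul_sq (by norm_num : (0:ℝ) < 3 / 8)).const_mul _
    · apply Filter.Eventually.of_forall
      intro g
      show gaussianPDFReal 0 1 g • ((1 / 2 ^ n : ℝ) * (2 * Real.cosh (g / r)) ^ n) ≤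
        (Real.sqrt (2 * Real.pi))⁻¹ * Real.exp (-(3 / 8) * g ^ 2)
      rw [smul_eq_mul, ← hpdf]
      apply mul_le_mul_of_nonneg_left _ (gaussianPDFReal_nonneg 0 1 g)
      have h4 := Real.cosh_le_exp_half_sq (g / r)
      calc (1 / 2 ^ n : ℝ) * (2 * Real.cosh (g / r)) ^ n = (Real.cosh (g / r)) ^ n := by
            rw [mul_pow]; field_simp
        _ ≤ (Real.exp ((g / r) ^ 2 / 2)) ^ n :=
            pow_le_pow_left₀ (Real.cosh_pos _).le h4 n
        _ = Real.exp (g ^ 2 / 8) := by
            rw [← Real.exp_nat_mul]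
            congr 1
            rw [div_pow, hr2]
            field_simp
            ring
  refine le_trans h3 ?_
  rw [integral_const_mul, integral_gaussian]
  have h5 : Real.sqrt (Real.pi / (3 / 8)) = Real.sqrt (4 / 3) * Real.sqrt (2 * Real.pi) := by
    rw [← Real.sqrt_mul (by norm_num)]
    congr 1
    ring
  rw [h5]
  have h6 : 0 < Real.sqrt (2 * Real.pi) := Real.sqrt_pos.mpr (by positivity)
  have h7 : Real.sqrt (4 / 3) ≤ 2 := by
    rw [Real.sqrt_le_left (by norm_num)]
    norm_num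
  calc (Real.sqrt (2 * Real.pi))⁻¹ * (Real.sqrt (4 / 3) * Real.sqrt (2 * Real.pi))
      = Real.sqrt (4 / 3) := by field_simp
    _ ≤ 2 := h7

end Pool.Agent.W493.KK
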