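import Pool.Agent.W503.KK.Stm
import Pool.Agent.W177.US.ES

set_option autoImplicit false

open MeasureTheory ProbabilityTheory Function

namespace Pool.Agent.W493.KK

open Pool.Agent.W503.KK Pool.Agent.W177.US.ES

/-- the standard Gaussian law -/
noncomputable abbrev gm : Measure ℝ := gaussianReal 0 1

/-- positive part squared -/
noncomputable def pp (x : ℝ) : ℝ := (max x 0) ^ 2

theorem pp_add (x : ℝ) : pp x + pp (-x) = x ^ 2 := by
  unfold pp
  rcases le_total 0 x with h | h
  · rw [max_eq_left h, max_eq_right (by linarith)]; ring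
  · rw [max_eq_right h, max_eq_left (by linarith)]; ring

theorem pp_nonneg (x : ℝ) : 0 ≤ pp x := sq_nonneg _

theorem pp_le (x : ℝ) : pp x ≤ x ^ 2 := by
  have := pp_add x
  have := pp_nonneg (-x)
  linarith

theorem pp_mono {x y : ℝ} (h : x ≤ y) : pp x ≤ pp y := by
  unfold pp
  apply pow_le_pow_left₀ (le_max_right _ _)
  exact max_le_max h le_rfl

theorem measurable_pp : Measurable pp := by
  unfold pp
  fun_prop

theorem int_bdd {φ : ℝ → ℝ} {C : ℝ} (hm : Measurable φ) (hC : ∀ s, |φ s| ≤ C) :
    Integrable φ gm :=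
  Integrable.of_bound hm.aestronglyMeasurable C (Filter.Eventually.of_forall hC)

theorem lin {φ : ℝ → ℝ} (hi : Integrable φ gm) (hi2 : Integrable (fun s => φ s ^ 2) gm)
    (β δ : ℝ) : ∫ s, (φ s ^ 2 + β * φ s + δ) ∂gm = ∫ s, φ s ^ 2 ∂gm + β * ∫ s, φ s ∂gm + δ := by
  have h1 : Integrable (fun s => φ s ^ 2 + β * φ s) gm := hi2.add (hi.const_mul β)
  rw [integral_add h1 (integrable_const _), integral_add hi2 (hi.const_mul β),
    integral_const_mul]
  simp

/-- one dimensional identity -/
theorem one_dim {φ : ℝ → ℝ} {C : ℝ} (hm : Measurable φ) (hC : ∀ s, |φ s| ≤ C) :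
    ∫ s, ∫ t, pp (φ s - φ t) ∂gm ∂gm = ∫ s, (φ s - ∫ t, φ t ∂gm) ^ 2 ∂gm := by
  have hC0 : 0 ≤ C := (abs_nonneg _).trans (hC 0)
  set m : ℝ := ∫ t, φ t ∂gm with hmdef
  have hi := int_bdd hm hC
  have hi2 : Integrable (fun s => φ s ^ 2) gm :=
    int_bdd (C := C ^ 2) (hm.pow_const 2) (fun s => by
      rw [abs_pow]; exact pow_le_pow_left₀ (abs_nonneg _) (hC s) 2)
  have hmeas : Measurable (fun q : ℝ × ℝ => pp (φ q.1 - φ q.2)) :=
    measurable_pp.comp ((hm.comp measurable_fst).sub (hm.comp measurable_snd))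
  have hbd : ∀ s t, |pp (φ s - φ t)| ≤ (2 * C) ^ 2 := by
    intro s t
    rw [abs_of_nonneg (pp_nonneg _)]
    refine le_trans (pp_le _) ?_
    have h1 := abs_le.mp (hC s)
    have h2 := abs_le.mp (hC t)
    apply sq_le_sq'
    · linarith
    · linarith
  have hprod : Integrable (uncurry fun s t => pp (φ s - φ t)) (gm.prod gm) :=
    Integrable.of_bound hmeas.aestronglyMeasurable ((2 * C) ^ 2)
      (Filter.Eventually.of_forall fun q => hbd q.1 q.2)
  have hswap : ∫ s, ∫ t, pp (φ s - φ t) ∂gm ∂gm = ∫ s, ∫ t, pp (-(φ s - φ t)) ∂gm ∂gm := by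
    rw [integral_integral_swap hprod]
    congr 1
    funext s
    congr 1
    funext t
    congr 1
    ring
  have hslice : ∀ s, Integrable (fun t => pp (φ s - φ t)) gm := fun s =>
    int_bdd (C := (2 * C) ^ 2) (measurable_pp.comp (measurable_const.sub hm)) (fun t => hbd s t)
  have hslice' : ∀ s, Integrable (fun t => pp (-(φ s - φ t))) gm := fun s =>
    int_bdd (C := (2 * C) ^ 2) (measurable_pp.comp (measurable_const.sub hm).neg) (fun t => by
      have : -(φ s - φ t) = φ t - φ s := by ring
      rw [this]; exact hbd t s)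
  have hsm : Measurable (fun s => ∫ t, pp (φ s - φ t) ∂gm) :=
    (hmeas.stronglyMeasurable.integral_prod_right (ν := gm)).measurable
  have hmeas' : Measurable (fun q : ℝ × ℝ => pp (-(φ q.1 - φ q.2))) :=
    measurable_pp.comp ((hm.comp measurable_fst).sub (hm.comp measurable_snd)).neg
  have hsm' : Measurable (fun s => ∫ t, pp (-(φ s - φ t)) ∂gm) :=
    (hmeas'.stronglyMeasurable.integral_prod_right (ν := gm)).measurable
  have hb1 : ∀ s, |∫ t, pp (φ s - φ t) ∂gm| ≤ (2 * C) ^ 2 := by
    intro s
    have := norm_integral_le_of_norm_le_const (μ := gm) (f := fun t => pp (φ s - φ t))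
      (C := (2 * C) ^ 2) (Filter.Eventually.of_forall fun t => hbd s t)
    simpa using this
  have hb1' : ∀ s, |∫ t, pp (-(φ s - φ t)) ∂gm| ≤ (2 * C) ^ 2 := by
    intro s
    have := norm_integral_le_of_norm_le_const (μ := gm) (f := fun t => pp (-(φ s - φ t)))
      (C := (2 * C) ^ 2) (Filter.Eventually.of_forall fun t => by
        have : -(φ s - φ t) = φ t - φ s := by ring
        rw [this]; exact hbd t s)
    simpa using this
  have hsum : ∫ s, ∫ t, pp (φ s - φ t) ∂gm ∂gm + ∫ s, ∫ t, pp (-(φ s - φ t)) ∂gm ∂gm =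
      ∫ s, ∫ t, (φ s - φ t) ^ 2 ∂gm ∂gm := by
    rw [← integral_add (int_bdd hsm hb1) (int_bdd hsm' hb1')]
    congr 1
    funext s
    rw [← integral_add (hslice s) (hslice' s)]
    congr 1
    funext t
    exact pp_add _
  have hin : ∀ s, ∫ t, (φ s - φ t) ^ 2 ∂gm = φ s ^ 2 - 2 * φ s * m + ∫ t, φ t ^ 2 ∂gm := by
    intro s
    have e : (fun t => (φ s - φ t) ^ 2) = fun t => φ t ^ 2 + (-2 * φ s) * φ t + φ s ^ 2 := by
      funext t; ring
    rw [e, lin hi hi2]
    ring
  have hout : ∫ s, ∫ t, (φ s - φ t) ^ 2 ∂gm ∂gm = 2 * (∫ t, φ t ^ 2 ∂gm - m ^ 2) := by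
    simp only [hin]
    have e : (fun s => φ s ^ 2 - 2 * φ s * m + ∫ t, φ t ^ 2 ∂gm) =
        fun s => φ s ^ 2 + (-2 * m) * φ s + ∫ t, φ t ^ 2 ∂gm := by
      funext s; ring
    rw [e, lin hi hi2]
    ring
  have hvar : ∫ s, (φ s - m) ^ 2 ∂gm = ∫ t, φ t ^ 2 ∂gm - m ^ 2 := by
    have e : (fun s => (φ s - m) ^ 2) = fun s => φ s ^ 2 + (-2 * m) * φ s + m ^ 2 := by
      funext s; ring
    rw [e, lin hi hi2]
    ring
  rw [hvar]
  linarith

variable {b : ℕ}

/-- one-sided differences -/
noncomputable def GD (h : (Fin b → ℝ) → ℝ) (i : Fin b) (z : Fin b → ℝ) : ℝ :=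
  ∫ t, pp (h z - h (update z i t)) ∂gm

theorem GD_BM {h : (Fin b → ℝ) → ℝ} (hh : BM h) (i : Fin b) : BM (GD h i) := by
  obtain ⟨hm, C, hC⟩ := hh
  have hmeas : Measurable (fun q : (Fin b → ℝ) × ℝ => pp (h q.1 - h (update q.1 i q.2))) :=
    measurable_pp.comp ((hm.comp measurable_fst).sub (hm.comp measurable_update'))
  refine ⟨(hmeas.stronglyMeasurable.integral_prod_right (ν := gm)).measurable, (2 * C) ^ 2, ?_⟩
  intro z
  have := norm_integral_le_of_norm_le_const (μ := gm)
    (f := fun t => pp (h z - h (update z i t))) (C := (2 * C) ^ 2)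
    (Filter.Eventually.of_forall fun t => by
      rw [Real.norm_eq_abs, abs_of_nonneg (pp_nonneg _)]
      refine le_trans (pp_le _) ?_
      have h1 := abs_le.mp (hC z)
      have h2 := abs_le.mp (hC (update z i t))
      apply sq_le_sq'
      · linarith
      · linarith)
  simpa [GD] using this

theorem es_term {h : (Fin b → ℝ) → ℝ} (hh : BM h) (i : Fin b) :
    ∫ u, (h u - ∫ v, h (update u i v) ∂gm) ^ 2 ∂(Measure.pi fun _ : Fin b => gm) =
      ∫ u, GD h i u ∂(Measure.pi fun _ : Fin b => gm) := by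
  have hA := hh.av (ν := fun _ : Fin b => gm) i
  have hsq : BM (fun u => (h u - Av (fun _ : Fin b => gm) i h u) ^ 2) := by
    have := (hh.sub hA).mul (hh.sub hA)
    convert this using 2
    ring
  have h1 := int_av (fun _ : Fin b => gm) i hsq
  have h2 := int_av (fun _ : Fin b => gm) i (GD_BM hh i)
  show ∫ u, (h u - Av (fun _ : Fin b => gm) i h u) ^ 2 ∂(Measure.pi fun _ : Fin b => gm) = _
  rw [← h1, ← h2]
  congr 1
  funext u
  obtain ⟨hm, C, hC⟩ := hh
  have hφm : Measurable (fun s => h (update u i s)) := hm.comp (measurable_update u)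
  have key := one_dim (φ := fun s => h (update u i s)) (C := C) hφm (fun s => hC _)
  unfold Av GD
  simp only [update_idem]
  exact key.symm

theorem gm_sq : ∫ t, t ^ 2 ∂gm = 1 := by
  have h1 := variance_eq_sub (μ := gm) (X := id) (by
    have := memLp_id_gaussianReal (μ := 0) (v := 1) 2
    exact_mod_cast this)
  rw [variance_id_gaussianReal] at h1
  have h2 : ∫ x, id x ∂gm = 0 := integral_id_gaussianReal
  rw [h2] at h1
  simp only [NNReal.coe_one, Pi.pow_apply, id_eq] at h1
  linarith

theorem gm_int_id : Integrable (fun t : ℝ => t) gm := by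
  have := (memLp_id_gaussianReal (μ := 0) (v := 1) 1)
  exact memLp_one_iff_integrable.mp (by exact_mod_cast this)

theorem gm_int_sq : Integrable (fun t : ℝ => t ^ 2) gm := by
  have : MemLp id 2 gm := by
    have := memLp_id_gaussianReal (μ := 0) (v := 1) 2
    exact_mod_cast this
  exact this.integrable_sq

theorem gm_dist (x : ℝ) : Integrable (fun t : ℝ => (x - t) ^ 2) gm ∧
    ∫ t, (x - t) ^ 2 ∂gm = 1 + x ^ 2 := by
  have e : (fun t : ℝ => (x - t) ^ 2) = fun t => (x ^ 2 - 2 * x * t) + t ^ 2 := by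
    funext t; ring
  have hi1 : Integrable (fun t : ℝ => x ^ 2 - 2 * x * t) gm :=
    (integrable_const _).sub (gm_int_id.const_mul _)
  constructor
  · rw [e]; exact hi1.add gm_int_sq
  · rw [e, integral_add hi1 gm_int_sq,
      integral_sub (integrable_const _) (gm_int_id.const_mul _), integral_const_mul, gm_sq]
    have h2 : ∫ x, x ∂gm = 0 := integral_id_gaussianReal
    rw [h2]
    simp
    ring

theorem gm_int8 : Integrable (fun t : ℝ => t ^ 8) gm := by
  have h : MemLp id ((8 : ℕ) : ENNReal) gm := by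
    have := memLp_id_gaussianReal (μ := 0) (v := 1) 8
    exact_mod_cast this
  have := h.integrable_norm_pow (by norm_num)
  convert this using 2 with t
  simp only [id_eq, Real.norm_eq_abs]
  rw [show (8:ℕ) = 2 * 4 from rfl, pow_mul, pow_mul, sq_abs]

theorem GD_le {h : (Fin b → ℝ) → ℝ} (i : Fin b) (z : Fin b → ℝ) (c : ℝ)
    (hc : ∀ t, h z - h (update z i t) ≤ |c| * |z i - t|) :
    GD h i z ≤ c ^ 2 * (1 + z i ^ 2) := by
  unfold GD
  have h1 : ∫ t, c ^ 2 * (z i - t) ^ 2 ∂gm = c ^ 2 * (1 + z i ^ 2) := by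
    rw [integral_const_mul, (gm_dist (z i)).2]
  rw [← h1]
  apply integral_mono_of_nonneg (Filter.Eventually.of_forall fun t => pp_nonneg _)
    ((gm_dist (z i)).1.const_mul _)
  apply Filter.Eventually.of_forall
  intro t
  show pp (h z - h (update z i t)) ≤ c ^ 2 * (z i - t) ^ 2
  refine le_trans (pp_mono (hc t)) ?_
  refine le_trans (pp_le _) ?_
  rw [mul_pow, sq_abs, sq_abs]

theorem var_fin (A : Finset (Fin b)) (F : (Fin b → ℝ) → ℝ) (K : ℝ) (hFc : Continuous F)
    (hF0 : ∀ z, 0 ≤ F z) (hFg : ∃ C : ℝ, ∀ z, F z ≤ C * (1 + ∑ i, |z i|))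
    (hFd : ∀ z, ∃ c : Fin b → ℝ, (∀ i, i ∉ A → c i = 0) ∧ ∑ i, c i ^ 2 ≤ K ∧
      ∀ i t, F z - F (update z i t) ≤ |c i| * |z i - t|) (T : ℝ) (hT : 0 < T) :
    ∫ z, (F z - ∫ w, F w ∂(GG (Fin b))) ^ 2 ∂(GG (Fin b)) ≤
      K * (1 + T + A.card * m8 / T ^ 3) := by
  set P : Measure (Fin b → ℝ) := GG (Fin b) with hP
  have hK : 0 ≤ K := by
    obtain ⟨c, _, hc, _⟩ := hFd 0
    exact le_trans (Finset.sum_nonneg fun i _ => sq_nonneg _) hc
  -- eighth moments
  have h8i : ∀ j : Fin b, Integrable (fun z : Fin b → ℝ => z j ^ 8) P := fun j =>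
    (measurePreserving_eval (fun _ : Fin b => gm) j).integrable_comp_of_integrable gm_int8
  have h8 : ∀ j : Fin b, ∫ z, z j ^ 8 ∂P = m8 := by
    intro j
    have hmp := measurePreserving_eval (fun _ : Fin b => gm) j
    have e1 : ∫ z, (fun x : ℝ => x ^ 8) (eval j z) ∂(Measure.pi fun _ : Fin b => gm) =
        ∫ x, x ^ 8 ∂(Measure.map (eval j) (Measure.pi fun _ : Fin b => gm)) :=
      (integral_map hmp.measurable.aemeasurable
        (continuous_pow 8).aestronglyMeasurable).symm
    rw [hmp.map_eq] at e1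
    exact e1
  -- truncations
  let h : ℕ → (Fin b → ℝ) → ℝ := fun n z => min (F z) n
  have hBM : ∀ n, BM (h n) := by
    intro n
    refine ⟨(hFc.min continuous_const).measurable, n, fun z => ?_⟩
    rw [abs_of_nonneg (le_min (hF0 z) (Nat.cast_nonneg n))]
    exact min_le_right _ _
  set B : ℝ := K * (1 + T + A.card * m8 / T ^ 3) with hB
  have hn : ∀ n, ∫ z, h n z ^ 2 ∂P - (∫ z, h n z ∂P) ^ 2 ≤ B := by
    intro n
    have h1 := Pool.Agent.W177.US.ES.main b ℝ (fun _ => gm) (h n) (hBM n).1 (hBM n).2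
    refine le_trans h1 ?_
    simp only [es_term (hBM n)]
    rw [← integral_finsetSum _ (fun i _ => (GD_BM (hBM n) i).integrable _)]
    have hRint : Integrable (fun z : Fin b → ℝ => K * (1 + T + (∑ j ∈ A, z j ^ 8) / T ^ 3)) P :=
      (((integrable_const _).add
        ((integrable_finsetSum A (fun j _ => h8i j)).div_const _)).const_mul K)
    have hRval : ∫ z : Fin b → ℝ, K * (1 + T + (∑ j ∈ A, z j ^ 8) / T ^ 3) ∂P = B := by
      rw [integral_const_mul, integral_add (integrable_const _)
        ((integrable_finsetSum A (fun j _ => h8i j)).div_const _), integral_div,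
        integral_finsetSum A (fun j _ => h8i j)]
      simp only [h8, Finset.sum_const, nsmul_eq_mul, integral_const, probReal_univ, smul_eq_mul,
        one_mul, hB]
    rw [← hRval]
    apply integral_mono_of_nonneg _ hRint _
    · apply Filter.Eventually.of_forall
      intro z
      exact Finset.sum_nonneg fun i _ => integral_nonneg fun t => pp_nonneg _
    · apply Filter.Eventually.of_forall
      intro z
      obtain ⟨c, hc0, hcK, hcd⟩ := hFd z
      have hcd' : ∀ i t, h n z - h n (update z i t) ≤ |c i| * |z i - t| := by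
        intro i t
        have h0 : 0 ≤ |c i| * |z i - t| := by positivity
        have h2 := hcd i t
        show min (F z) n - min (F (update z i t)) n ≤ _
        rcases le_total (F (update z i t)) (n : ℝ) with h3 | h3
        · rw [min_eq_left h3]
          have := min_le_left (F z) (n : ℝ)
          linarith
        · rw [min_eq_right h3]
          have := min_le_right (F z) (n : ℝ)
          linarith
      have hS : 0 ≤ (∑ j ∈ A, z j ^ 8) / T ^ 3 := by
        apply div_nonneg (Finset.sum_nonneg fun j _ => by positivity) (by positivity)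
      show ∑ i, GD (h n) i z ≤ K * (1 + T + (∑ j ∈ A, z j ^ 8) / T ^ 3)
      calc ∑ i, GD (h n) i z ≤ ∑ i, c i ^ 2 * (1 + z i ^ 2) :=
            Finset.sum_le_sum fun i _ => GD_le i z (c i) (hcd' i)
        _ ≤ ∑ i, c i ^ 2 * (1 + T + (∑ j ∈ A, z j ^ 8) / T ^ 3) := by
            apply Finset.sum_le_sum
            intro i _
            by_cases hi : i ∈ A
            · apply mul_le_mul_of_nonneg_left _ (sq_nonneg _)
              have h4 : z i ^ 2 ≤ T + z i ^ 8 / T ^ 3 := by
                rcases le_total (z i ^ 2) T with h5 | h5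
                · have : 0 ≤ z i ^ 8 / T ^ 3 := by positivity
                  linarith
                · have h6 : z i ^ 2 ≤ z i ^ 8 / T ^ 3 := by
                    rw [le_div_iff₀ (by positivity)]
                    have h7 : T ^ 3 ≤ (z i ^ 2) ^ 3 := pow_le_pow_left₀ hT.le h5 3
                    calc z i ^ 2 * T ^ 3 ≤ z i ^ 2 * (z i ^ 2) ^ 3 :=
                          mul_le_mul_of_nonneg_left h7 (sq_nonneg _)
                      _ = z i ^ 8 := by ring
                  linarith
              have h5 : z i ^ 8 / T ^ 3 ≤ (∑ j ∈ A, z j ^ 8) / T ^ 3 := by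
                apply div_le_div_of_nonneg_right _ (by positivity)
                exact Finset.single_le_sum (f := fun j => z j ^ 8)
                  (fun j _ => by positivity) hi
              linarith
            · rw [hc0 i hi]; simp
        _ = (∑ i, c i ^ 2) * (1 + T + (∑ j ∈ A, z j ^ 8) / T ^ 3) := by
            rw [Finset.sum_mul]
        _ ≤ K * (1 + T + (∑ j ∈ A, z j ^ 8) / T ^ 3) :=
            mul_le_mul_of_nonneg_right hcK (by linarith)
  -- square integrability
  obtain ⟨C, hC⟩ := hFg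
  have hid : MemLp (id : ℝ → ℝ) 2 gm := by
    have := memLp_id_gaussianReal (μ := 0) (v := 1) 2
    exact_mod_cast this
  have hev : ∀ i : Fin b, MemLp (fun z : Fin b → ℝ => |z i|) 2 P := by
    intro i
    exact (hid.comp_measurePreserving (measurePreserving_eval (fun _ : Fin b => gm) i)).abs
  have hbd : MemLp (fun z : Fin b → ℝ => |C| * (1 + ∑ i, |z i|)) 2 P :=
    ((memLp_const (1:ℝ)).add (memLp_finsetSum Finset.univ (fun i _ => hev i))).const_mul |C|
  have hF2 : MemLp F 2 P := by
    apply hbd.mono' hFc.aestronglyMeasurable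
    apply Filter.Eventually.of_forall
    intro z
    rw [Real.norm_eq_abs, abs_of_nonneg (hF0 z)]
    refine le_trans (hC z) ?_
    have : 0 ≤ 1 + ∑ i, |z i| := by positivity
    exact mul_le_mul_of_nonneg_right (le_abs_self C) this
  have hFi : Integrable F P := hF2.integrable (by norm_num)
  have hFi2 : Integrable (fun z => F z ^ 2) P := hF2.integrable_sq
  have hlim : ∀ z, Filter.Tendsto (fun n => h n z) Filter.atTop (nhds (F z)) := by
    intro z
    apply tendsto_atTop_of_eventually_const (i₀ := ⌈F z⌉₊)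
    intro n hn
    apply min_eq_left
    exact le_trans (Nat.le_ceil _) (by exact_mod_cast hn)
  have hl1 : Filter.Tendsto (fun n => ∫ z, h n z ∂P) Filter.atTop (nhds (∫ z, F z ∂P)) := by
    apply tendsto_integral_of_dominated_convergence F
    · intro n; exact (hBM n).1.aestronglyMeasurable
    · exact hFi
    · intro n
      apply Filter.Eventually.of_forall
      intro z
      rw [Real.norm_eq_abs, abs_of_nonneg (le_min (hF0 z) (Nat.cast_nonneg n))]
      exact min_le_left _ _
    · exact Filter.Eventually.of_forall hlim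
  have hl2 : Filter.Tendsto (fun n => ∫ z, h n z ^ 2 ∂P) Filter.atTop
      (nhds (∫ z, F z ^ 2 ∂P)) := by
    apply tendsto_integral_of_dominated_convergence (fun z => F z ^ 2)
    · intro n; exact ((hBM n).1.pow_const 2).aestronglyMeasurable
    · exact hFi2
    · intro n
      apply Filter.Eventually.of_forall
      intro z
      rw [Real.norm_eq_abs, abs_of_nonneg (sq_nonneg _)]
      exact pow_le_pow_left₀ (le_min (hF0 z) (Nat.cast_nonneg n)) (min_le_left _ _) 2
    · exact Filter.Eventually.of_forall fun z => (hlim z).pow 2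
  have hl3 : ∫ z, F z ^ 2 ∂P - (∫ z, F z ∂P) ^ 2 ≤ B :=
    le_of_tendsto (hl2.sub (hl1.pow 2)) (Filter.Eventually.of_forall hn)
  have hv := variance_eq_sub (μ := P) hF2
  rw [variance_eq_integral hF2.aemeasurable] at hv
  simp only [Pi.pow_apply] at hv
  rw [hv]
  exact hl3

theorem t_VAR : S_VAR := by
  intro ι _ inst A F K hFc hF0 hFg hFd T hT
  let e : Fin (Fintype.card ι) ≃ ι := (Fintype.equivFin ι).symm
  have hmp := measurePreserving_piCongrLeft (fun _ : ι => gm) e
  have hval : ∀ (u : Fin (Fintype.card ι) → ℝ),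
      MeasurableEquiv.piCongrLeft (fun _ : ι => ℝ) e u = fun i => u (e.symm i) := by
    intro u
    funext i
    rw [MeasurableEquiv.coe_piCongrLeft]
    have := Equiv.piCongrLeft_apply_apply (fun _ : ι => ℝ) e u (e.symm i)
    rw [Equiv.apply_symm_apply] at this
    exact this
  have hint : ∀ g : (ι → ℝ) → ℝ, ∫ u, g (fun i => u (e.symm i)) ∂(GG (Fin (Fintype.card ι))) =
      ∫ z, g z ∂(GG ι) := by
    intro g
    have := hmp.integral_comp' g
    simp only [hval] at this
    exact this
  let F' : (Fin (Fintype.card ι) → ℝ) → ℝ := fun u => F (fun i => u (e.symm i))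
  have hupd : ∀ (u : Fin (Fintype.card ι) → ℝ) k t,
      (fun i => update u k t (e.symm i)) = update (fun i => u (e.symm i)) (e k) t := by
    intro u k t
    funext i
    by_cases hi : i = e k
    · subst hi
      rw [Equiv.symm_apply_apply, update_self, update_self]
    · rw [update_of_ne hi, update_of_ne]
      intro h
      apply hi
      rw [← h, Equiv.apply_symm_apply]
  have hmain := var_fin (A.map e.symm.toEmbedding) F' K
    (hFc.comp (continuous_pi fun i => continuous_apply (e.symm i)))
    (fun u => hF0 _) (by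
      obtain ⟨C, hC⟩ := hFg
      refine ⟨C, fun u => ?_⟩
      refine le_trans (hC _) (le_of_eq ?_)
      congr 2
      exact Equiv.sum_comp e.symm (fun k => |u k|)) (by
      intro u
      obtain ⟨c, hc0, hcK, hcd⟩ := hFd (fun i => u (e.symm i))
      refine ⟨fun k => c (e k), ?_, ?_, ?_⟩
      · intro k hk
        apply hc0
        intro h
        apply hk
        rw [Finset.mem_map]
        exact ⟨e k, h, by simp⟩
      · rw [Equiv.sum_comp e (fun i => c i ^ 2)]
        exact hcK
      · intro k t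
        have := hcd (e k) t
        show F _ - F (fun i => update u k t (e.symm i)) ≤ _
        rw [hupd]
        rw [Equiv.symm_apply_apply] at this
        exact this) T hT
  rw [Finset.card_map] at hmain
  rw [← hint F, ← hint]
  exact hmain

end Pool.Agent.W493.KK
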